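import Mathlib
import Pool.Agent.Results.MP_c7df87_gt.CountableWhyburn

set_option autoImplicit false

namespace Pool.Agent.Results.MP_c7df87_gt.ClopenSubspaces

open Set Topology TopologicalSpace
open Pool.Agent.H94R3.Sigma

universe u

/-- The Whyburn property: if `p` is in the closure of `A`, but not in `A`, then the closure of some
subset `B` of `A` is `B ∪ {p}`. -/
def Whyburn (X : Type u) [TopologicalSpace X] : Prop :=
  ∀ (A : Set X) (p : X), p ∈ closure A \ A → ∃ B, B ⊆ A ∧ closure B = B ∪ {p}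

section
variable {X Y : Type*} [TopologicalSpace X] [TopologicalSpace Y]

lemma t3_sum (hX : T3Space X) (hY : T3Space Y) : T3Space (X ⊕ Y) := by
  have h1 : RegularSpace (X ⊕ Y) := by
    apply RegularSpace.of_exists_mem_nhds_isClosed_subset
    rintro (x | y) s hs
    · have h2 : Sum.inl ⁻¹' s ∈ 𝓝 x := continuous_inl.continuousAt.preimage_mem_nhds hs
      obtain ⟨t, ht, htc, hts⟩ := exists_mem_nhds_isClosed_subset h2
      exact ⟨Sum.inl '' t, IsOpenEmbedding.inl.image_mem_nhds.2 ht,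
        IsClosedEmbedding.inl.isClosedMap _ htc, image_subset_iff.2 hts⟩
    · have h2 : Sum.inr ⁻¹' s ∈ 𝓝 y := continuous_inr.continuousAt.preimage_mem_nhds hs
      obtain ⟨t, ht, htc, hts⟩ := exists_mem_nhds_isClosed_subset h2
      exact ⟨Sum.inr '' t, IsOpenEmbedding.inr.image_mem_nhds.2 ht,
        IsClosedEmbedding.inr.isClosedMap _ htc, image_subset_iff.2 hts⟩
  have h2 : T2Space (X ⊕ Y) := inferInstance
  exact {}

/-- Transport of the Whyburn property along a clopen embedding. -/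
lemma whyburn_aux {Z : Type*} [TopologicalSpace Z] (hX : Whyburn X) (f : X → Z)
    (ho : IsOpenEmbedding f) (hc : IsClosedEmbedding f) (A : Set Z) (x : X)
    (h : f x ∈ closure A \ A) : ∃ B, B ⊆ A ∧ closure B = B ∪ {f x} := by
  have h1 : x ∈ closure (f ⁻¹' A) := by
    rw [← ho.isOpenMap.preimage_closure_eq_closure_preimage ho.continuous]
    exact h.1
  obtain ⟨B, hB, hB'⟩ := hX (f ⁻¹' A) x ⟨h1, h.2⟩
  refine ⟨f '' B, image_subset_iff.2 hB, ?_⟩
  rw [hc.closure_image_eq, hB', image_union, image_singleton]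

lemma whyburn_sum (hX : Whyburn X) (hY : Whyburn Y) : Whyburn (X ⊕ Y) := by
  rintro A (x | y) h
  · exact whyburn_aux hX Sum.inl IsOpenEmbedding.inl IsClosedEmbedding.inl A x h
  · exact whyburn_aux hY Sum.inr IsOpenEmbedding.inr IsClosedEmbedding.inr A y h

lemma not_selectively_sum (hX : ¬ SelectivelyDSeparable X) : ¬ SelectivelyDSeparable (X ⊕ Y) := by
  intro h
  apply hX
  intro D hD
  obtain ⟨F, hF, hF'⟩ := h (fun n => Sum.inl '' D n ∪ range Sum.inr) (fun n => by
    rintro (x | y)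
    · apply closure_mono subset_union_left
      have h1 : (Sum.inl x : X ⊕ Y) ∈ Sum.inl '' closure (D n) := ⟨x, hD n x, rfl⟩
      rw [IsClosedEmbedding.inl.closure_image_eq]
      exact h1
    · exact subset_closure (Or.inr ⟨y, rfl⟩))
  refine ⟨fun n => Sum.inl ⁻¹' F n, fun n => ⟨?_, ?_⟩, ?_⟩
  · intro x hx
    rcases (hF n).1 hx with ⟨x', hx', h1⟩ | ⟨y, h1⟩
    · rw [← Sum.inl_injective h1]
      exact hx'
    · exact absurd h1 (by simp)
  · have h1 := (hF n).2
    rw [isDiscrete_iff_forall_mem_exists_isOpen] at h1 ⊢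
    intro x hx
    obtain ⟨U, hU, hU'⟩ := h1 _ hx
    refine ⟨Sum.inl ⁻¹' U, hU.preimage continuous_inl, ?_⟩
    rw [← preimage_inter, hU']
    ext z
    simp
  · rw [← preimage_iUnion]
    exact hF'.preimage IsOpenEmbedding.inl.isOpenMap

lemma weakly_sum (hX : WeaklyDSeparable X) (hY : WeaklyDSeparable Y) :
    WeaklyDSeparable (X ⊕ Y) := by
  obtain ⟨E, hE, hE'⟩ := hX
  obtain ⟨F, hF, hF'⟩ := hY
  refine ⟨fun n => if Even n then Sum.inl '' E (n / 2) else Sum.inr '' F (n / 2), fun n => ?_, ?_⟩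
  · dsimp only
    split_ifs
    · exact (hE _).image IsOpenEmbedding.inl.isInducing
    · exact (hF _).image IsOpenEmbedding.inr.isInducing
  · rintro (x | y)
    · have h1 : (Sum.inl x : X ⊕ Y) ∈ Sum.inl '' closure (⋃ n, E n) := ⟨x, hE' x, rfl⟩
      rw [← IsClosedEmbedding.inl.closure_image_eq] at h1
      refine closure_mono ?_ h1
      rintro _ ⟨z, hz, rfl⟩
      obtain ⟨n, hn⟩ := mem_iUnion.1 hz
      refine mem_iUnion.2 ⟨2 * n, ?_⟩
      rw [if_pos (even_two_mul n), Nat.mul_div_cancel_left n two_pos]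
      exact ⟨z, hn, rfl⟩
    · have h1 : (Sum.inr y : X ⊕ Y) ∈ Sum.inr '' closure (⋃ n, F n) := ⟨y, hF' y, rfl⟩
      rw [← IsClosedEmbedding.inr.closure_image_eq] at h1
      refine closure_mono ?_ h1
      rintro _ ⟨z, hz, rfl⟩
      obtain ⟨n, hn⟩ := mem_iUnion.1 hz
      refine mem_iUnion.2 ⟨2 * n + 1, ?_⟩
      rw [if_neg (by simp), show (2 * n + 1) / 2 = n by omega]
      exact ⟨z, hn, rfl⟩

end

/-- There is (in ZFC) a countable regular `T₁` Whyburn space `X` that is not D-separable and such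
that, for every regular `T₁` Whyburn space `Y`, the topological sum `X ⊕ Y` is a regular `T₁`
Whyburn space that is not D-separable; it is d-separable, separable or countable if `Y` is. -/
theorem result : ∃ (X : Type) (_ : TopologicalSpace X), Countable X ∧ T3Space X ∧ Whyburn X ∧
    SeparableSpace X ∧ WeaklyDSeparable X ∧ ¬ SelectivelyDSeparable X ∧
    ∀ (Y : Type u) [TopologicalSpace Y], T3Space Y → Whyburn Y →
      T3Space (X ⊕ Y) ∧ Whyburn (X ⊕ Y) ∧ ¬ SelectivelyDSeparable (X ⊕ Y) ∧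
      (WeaklyDSeparable Y → WeaklyDSeparable (X ⊕ Y)) ∧
      (SeparableSpace Y → SeparableSpace (X ⊕ Y)) ∧ (Countable Y → Countable (X ⊕ Y)) := by
  obtain ⟨X, _, h1, h2, h3, h4, h5, h6⟩ := CountableWhyburn.result
  refine ⟨X, inferInstance, h1, h2, h3, h4, h5, h6, fun Y _ a1 a2 => ⟨t3_sum h2 a1,
    whyburn_sum h3 a2, not_selectively_sum h6, weakly_sum h5, fun a => ?_,
    fun a => inferInstance⟩⟩
  infer_instance

end Pool.Agent.Results.MP_c7df87_gt.ClopenSubspaces
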